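import Pool.Agent.helper616_TZ.Main

/-!
# The problem of Waring–Goldbach with almost all real coefficients: `k + 3 + ⌊log₂ k⌋` primes

Let `3 * 2 ^ (s - k - 1) > 5 * k`, for instance `s ≥ k + 3 + ⌊log₂ k⌋`. For almost all positive real coefficients
`l 1, …, l s` every sufficiently large real number `t` is approximated within any given `h > 0` by a value
`l 1 p 1 ^ k + … + l s p s ^ k` with prime numbers `p i`.

Proof: (1) for `k + 1` primes the variance of the number of the representations over the coefficients and over `t ≤ T`
(Plancherel; the mean square of the exponential sum over the primes over `l`), together with the distribution of the primes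
in almost all intervals of length `X ^ (2 / 5)`, shows that the set of the exceptional `t ≤ T` has measure
`T / P ^ (3 / 5)`, `P = T ^ (1 / k)`, up to logarithms; (2) every further prime variable, with only two values, squares the
density of the exceptional set.
-/

set_option autoImplicit false

open Filter Topology MeasureTheory

namespace Pool.Agent.Results.MP_570bef_nt.GenericPrimes

/-- Let `k ≥ 2` and `5 * k < 3 * 2 ^ (s - (k + 1))`, for instance `s ≥ k + 3 + ⌊log₂ k⌋`. For almost all
`l ∈ (0, ∞) ^ s` and all `h > 0`, for every sufficiently large real number `t` there are primes `p 1, …, p s` with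
`t < ∑ l i * p i ^ k ≤ t + h`. -/
theorem result (k s : ℕ) (hk : 2 ≤ k) (hs : 5 * k < 3 * 2 ^ (s - (k + 1))) :
    ∀ᵐ l : Fin s → ℝ, (∀ i, 0 < l i) → ∀ h : ℝ, 0 < h → ∀ᶠ t : ℝ in atTop,
      ∃ p : Fin s → ℕ, (∀ i, (p i).Prime) ∧ t < ∑ i, l i * (p i : ℝ) ^ k ∧ ∑ i, l i * (p i : ℝ) ^ k ≤ t + h := by
  have h1 : k + 1 ≤ s := by
    by_contra hcon
    have : s - (k + 1) = 0 := by omega
    rw [this] at hs
    omega
  obtain ⟨m, rfl⟩ : ∃ m, s = k + 1 + m := ⟨s - (k + 1), by omega⟩
  have h2 : k + 1 + m - (k + 1) = m := by omega
  rw [h2] at hs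
  exact Pool.Agent.helper616_TW.waringV k m hk hs

end Pool.Agent.Results.MP_570bef_nt.GenericPrimes
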